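import Mathlib
import Pool.Agent.AHE.FinZ

/-!
# The absolute Hodge conjecture (de Rham part): reduction to computable coefficients
-/

namespace Pool.Agent.Results.MP_e2e4f5_ag.ComputableReduction

open Pool.Agent.AHC Pool.Agent.AHR Pool.Agent.AHT

/-- `z` is a computable complex number: the Gaussian rational approximations
`((p n - q n) + (r n - s n) i) / (t n + 1)`, with computable `p, q, r, s, t : ℕ → ℕ`, are at distance
at most `1 / (n + 1)` from `z` -/
def IsComputable (z : ℂ) : Prop :=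
  ∃ p q r s t : ℕ → ℕ, Computable p ∧ Computable q ∧ Computable r ∧ Computable s ∧ Computable t ∧
    ∀ n : ℕ, ‖z - (((p n : ℂ) - q n) + ((r n : ℂ) - s n) * Complex.I) / ((t n : ℂ) + 1)‖ ≤
      1 / ((n : ℝ) + 1)

/-- all coefficients of the datum are computable numbers -/
def HasComputableCoeffs (d : Datum) : Prop := IsDefinedOver d {z | IsComputable z}

/-- (1) For every datum `d`, every automorphism `σ` of `ℂ`, every finite set `X` of complex numbers
and every `ε > 0` there is an automorphism `σ'` of `ℂ` with `σ' = σ` on the algebraic numbers and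
`|σ' x - σ x| < ε` for `x ∈ X` such that `d.conj σ'` has computable coefficients and is a
Hodge class if and only if `d.conj σ` is.

(2) So the absolute Hodge conjecture (de Rham part) is equivalent to its restriction to the pairs
`d, d.conj σ` of conjugate data which both have computable coefficients. -/
theorem result :
    (∀ (d : Datum) (σ : ℂ ≃+* ℂ) (X : Finset ℂ) (ε : ℝ), 0 < ε → ∃ σ' : ℂ ≃+* ℂ,
      (∀ z, IsAlgebraic ℚ z → σ' z = σ z) ∧ (∀ x ∈ X, ‖σ' x - σ x‖ < ε) ∧
        HasComputableCoeffs (d.conj σ') ∧ ((d.conj σ').IsRational ↔ (d.conj σ).IsRational)) ∧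
    ((∀ (d : Datum) (σ : ℂ ≃+* ℂ), HasComputableCoeffs d → HasComputableCoeffs (d.conj σ) →
      d.IsRational → (d.conj σ).IsRational) →
        ∀ (d : Datum) (σ : ℂ ≃+* ℂ), d.IsRational → (d.conj σ).IsRational) := by
  have h1 : ∀ (d : Datum) (σ : ℂ ≃+* ℂ) (X : Finset ℂ) (ε : ℝ), 0 < ε → ∃ σ' : ℂ ≃+* ℂ,
      (∀ z, IsAlgebraic ℚ z → σ' z = σ z) ∧ (∀ x ∈ X, ‖σ' x - σ x‖ < ε) ∧
        HasComputableCoeffs (d.conj σ') ∧ ((d.conj σ').IsRational ↔ (d.conj σ).IsRational) := by
    intro d σ X ε hε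
    obtain ⟨σ', h1, h2, h3, h4⟩ := AHE.law_yz d σ X hε
    exact ⟨σ', fun z hz => h1 z (mem_cl_empty hz), h2, h3, h4⟩
  refine ⟨h1, fun H d σ hd => ?_⟩
  obtain ⟨ρ, -, -, h3, h4⟩ := h1 d (RingEquiv.refl ℂ) ∅ 1 one_pos
  rw [Datum.conj_refl] at h4
  obtain ⟨σ', -, -, h6, h7⟩ := h1 d σ ∅ 1 one_pos
  have h5 : ρ.trans (ρ.symm.trans σ') = σ' := by
    ext z
    simp
  have h8 := H (d.conj ρ) (ρ.symm.trans σ') h3 (by rwa [Datum.conj_conj, h5]) (h4.2 hd)
  rw [Datum.conj_conj, h5] at h8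
  exact h7.1 h8

end Pool.Agent.Results.MP_e2e4f5_ag.ComputableReduction
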