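import Mathlib
import Pool.Agent.AHE.ResX

/-!
# The absolute Hodge conjecture (de Rham part): Hodge classes whose coefficients are generic
relative to the primitive recursive numbers
-/

namespace Pool.Agent.Results.MP_e2e4f5_ag.ExplicitLaw

open Pool.Agent.AHC Pool.Agent.AHT

/-- the functions `ℕ → ℕ` which are primitive recursive relative to the functions of `O` (for
`O = ∅`: the primitive recursive functions) -/
inductive PrimrecIn (O : Set (ℕ → ℕ)) : (ℕ → ℕ) → Prop
  | oracle {f : ℕ → ℕ} (hf : f ∈ O) : PrimrecIn O f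
  | zero : PrimrecIn O fun _ => 0
  | succ : PrimrecIn O Nat.succ
  | left : PrimrecIn O fun n => n.unpair.1
  | right : PrimrecIn O fun n => n.unpair.2
  | pair {f g : ℕ → ℕ} : PrimrecIn O f → PrimrecIn O g → PrimrecIn O fun n => Nat.pair (f n) (g n)
  | comp {f g : ℕ → ℕ} : PrimrecIn O f → PrimrecIn O g → PrimrecIn O fun n => f (g n)
  | prec {f g : ℕ → ℕ} : PrimrecIn O f → PrimrecIn O g →
      PrimrecIn O (Nat.unpaired fun z n => n.rec (f z) fun y IH => g <| Nat.pair z <| Nat.pair y IH)

/-- `z` is a primitive recursive complex number relative to `O`: the Gaussian rational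
approximations `((p n - q n) + (r n - s n) i) / (t n + 1)`, with `p, q, r, s, t` primitive
recursive relative to `O`, are at distance at most `1 / (n + 1)` from `z` -/
def IsPrimrec (O : Set (ℕ → ℕ)) (z : ℂ) : Prop :=
  ∃ p q r s t : ℕ → ℕ, PrimrecIn O p ∧ PrimrecIn O q ∧ PrimrecIn O r ∧ PrimrecIn O s ∧
    PrimrecIn O t ∧ ∀ n : ℕ,
      ‖z - (((p n : ℂ) - q n) + ((r n : ℂ) - s n) * Complex.I) / ((t n : ℂ) + 1)‖ ≤
        1 / ((n : ℝ) + 1)

theorem primrecIn_iff {O : Set (ℕ → ℕ)} {f : ℕ → ℕ} : PrimrecIn O f ↔ EllPR.PRIn O f := by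
  constructor
  · intro hf
    induction hf with
    | oracle hf => exact .oracle hf
    | zero => exact .zero
    | succ => exact .succ
    | left => exact .left
    | right => exact .right
    | pair _ _ h1 h2 => exact h1.pair h2
    | comp _ _ h1 h2 => exact h1.comp h2
    | prec _ _ h1 h2 => exact h1.prec h2
  · intro hf
    induction hf with
    | oracle hf => exact .oracle hf
    | zero => exact .zero
    | succ => exact .succ
    | left => exact .left
    | right => exact .right
    | pair _ _ h1 h2 => exact h1.pair h2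
    | comp _ _ h1 h2 => exact h1.comp h2
    | prec _ _ h1 h2 => exact h1.prec h2

theorem isPrimrec_iff {O : Set (ℕ → ℕ)} {z : ℂ} : IsPrimrec O z ↔ EllPR.IsPR O z := by
  rw [AHE.isPR_iff_exists]
  simp only [IsPrimrec, primrecIn_iff]

/-- Let `O` be a set of functions `ℕ → ℕ` and `E` the field of the complex numbers which are
primitive recursive relative to `O`.

(1) Let `S ⊆ E` be closed under complex conjugation and let `x_1, ..., x_n` be complex numbers such
that for each `i` there is a set `O' ⊇ O` of functions relative to which `x_1, ..., x_(i - 1)` are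
primitive recursive, but `x_i` is not.  If a datum `(Y, ω)` with coefficients algebraic over
`ℚ(S, x_1, ..., x_n)` is a Hodge class, then so are its conjugates by all automorphisms of `ℂ` which
fix the real numbers algebraic over `ℚ(S)`.

(2) If a datum with coefficients algebraic over `E(x)`, `x` a complex number, is a Hodge class, then
so are its conjugates by all automorphisms of `ℂ` which fix the real numbers in `E`. -/
theorem result (O : Set (ℕ → ℕ)) :
    (∀ S : Set ℂ, (∀ a ∈ S, IsPrimrec O a ∧ (starRingEnd ℂ) a ∈ S) → ∀ (n : ℕ) (x : Fin n → ℂ),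
      (∀ i, ∃ O' : Set (ℕ → ℕ), O ⊆ O' ∧ (∀ j < i, IsPrimrec O' (x j)) ∧ ¬ IsPrimrec O' (x i)) →
      ∀ d : Datum, IsDefinedOver d {z | IsAlgebraic (Algebra.adjoin ℚ (S ∪ Set.range x)) z} →
        d.IsRational →
          ∀ σ : ℂ ≃+* ℂ, (∀ z, IsAlgebraic (Algebra.adjoin ℚ S) z → z.im = 0 → σ z = z) →
            (d.conj σ).IsRational) ∧
    ∀ (x : ℂ) (d : Datum),
      IsDefinedOver d {z | IsAlgebraic (Algebra.adjoin ℚ ({a | IsPrimrec O a} ∪ {x})) z} →
        d.IsRational → ∀ σ : ℂ ≃+* ℂ, (∀ z, IsPrimrec O z → z.im = 0 → σ z = z) →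
          (d.conj σ).IsRational := by
  refine ⟨fun S hS n x hx d hd h σ hσ => ?_, fun x d hd h σ hσ => ?_⟩
  · have h1 : ∀ a ∈ S, EllPR.IsPR O a := fun a ha => isPrimrec_iff.1 (hS a ha).1
    have h2 : ∀ i, ∃ O' : Set (ℕ → ℕ), O ⊆ O' ∧ (∀ j < i, EllPR.IsPR O' (x j)) ∧
        ¬ EllPR.IsPR O' (x i) := by
      intro i
      obtain ⟨O', h2, h3, h4⟩ := hx i
      exact ⟨O', h2, fun j hj => isPrimrec_iff.1 (h3 j hj), fun h5 => h4 (isPrimrec_iff.2 h5)⟩
    have h3 : IsDefinedOver d (cl (S ∪ Set.range x)) := hd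
    have h4 : ∀ z ∈ cl S, z.im = 0 → σ z = z := fun z hz => hσ z hz
    exact AHE.law_x (O := O) (S := S) (x := x) h1 (fun a ha => (hS a ha).2) h2 d h3 h h4
  · have h1 : {a | IsPrimrec O a} = {a | EllPR.IsPR O a} := by
      ext a
      exact isPrimrec_iff
    rw [h1] at hd
    have h3 : IsDefinedOver d (cl ({a | EllPR.IsPR O a} ∪ {x})) := hd
    exact AHE.law_x1 (O := O) x d h3 h fun z hz => hσ z (isPrimrec_iff.2 hz)

end Pool.Agent.Results.MP_e2e4f5_ag.ExplicitLaw
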