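import Mathlib
import Pool.Agent.AHT.FinF

/-!
# The absolute Hodge conjecture (de Rham part): finitely many powers of one automorphism test each
class
-/

namespace Pool.Agent.Results.MP_e2e4f5_ag.FiniteTest

open Pool.Agent.AHC Pool.Agent.AHR Pool.Agent.AHT

/-- There is an automorphism `τ` of `ℂ` which fixes all algebraic numbers such that for every smooth
projective variety `Y` with closed cochains `ω_1, ..., ω_r` representing classes in
`F^k H^{2k}_{dR}(Y/ℂ)` whose conjugates by each automorphism of `ℂ` are linearly independent (a frame
`f`), with coefficients algebraic over `ℚ(x)`, `x` a set of `n` complex numbers, and for all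
complex numbers `e_1, ..., e_r`: if the conjugates of the class `∑ e_j ω_j` by more than `n + 1`
powers of `τ` are real, then all its conjugates by automorphisms which fix the real algebraic
numbers are real, and all or none of them are rational (that is, Hodge classes). -/
theorem result : ∃ τ : RingAut ℂ, FixesAlg τ ∧ ∀ (f : Frame) (x : Finset ℂ),
    f.IsDefinedOver {z | IsAlgebraic (Algebra.adjoin ℚ (x : Set ℂ)) z} →
      ∀ (e : Fin f.r → ℂ) (J : Finset ℤ), x.card + 1 < J.card →
        (∀ j ∈ J, IsReal ((f.datum e).conj (τ ^ j))) →
        ∀ σ : ℂ ≃+* ℂ, FixesRealAlg σ → IsReal ((f.datum e).conj σ) ∧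
          ∀ σ' : ℂ ≃+* ℂ, FixesRealAlg σ' →
            (((f.datum e).conj σ').IsRational → ((f.datum e).conj σ).IsRational) :=
  final2

end Pool.Agent.Results.MP_e2e4f5_ag.FiniteTest
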