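import Mathlib
import Pool.Agent.AHU.Fin

/-!
# The absolute Hodge conjecture (de Rham part): a zero-one law for individual classes
-/

namespace Pool.Agent.Results.MP_e2e4f5_ag.IndividualLaw

open Pool.Agent.AHC Pool.Agent.AHR Pool.Agent.AHU

/-- For every smooth projective variety with a class in `F^k H^{2k}_{dR}` (a datum `d`) there are a
number field `k` and a set `S` of automorphisms of `ℂ` such that: `S` contains with `σ` every `τ`
with the same restriction to `k`; the conjugates of the class by the elements of `S` are real; the
set of the other automorphisms for which the conjugate is real is not dense in any nonempty open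
set of automorphisms (pointwise convergence, usual topology of `ℂ`); and for `σ ∈ S` it depends only
on the restriction of `σ` to `k` whether the conjugate is rational (that is, a Hodge class).

So if the set of the automorphisms for which the conjugate is a Hodge class is dense in some
nonempty open set, then it contains a coset of the group of the automorphisms over a number
field. -/
theorem result (d : Datum) :
    ∃ (k : IntermediateField ℚ ℂ) (S : Set (ℂ ≃+* ℂ)),
      FiniteDimensional ℚ k ∧ (∀ σ ∈ S, ∀ τ : ℂ ≃+* ℂ, (∀ z ∈ k, τ z = σ z) → τ ∈ S) ∧
      (∀ σ ∈ S, IsRealClass (d.conj σ).F (d.conj σ).k (d.conj σ).w) ∧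
      ¬ SomewhereDenseIn {σ | σ ∉ S ∧ IsRealClass (d.conj σ).F (d.conj σ).k (d.conj σ).w} ∧
      ∀ σ ∈ S, ∀ τ : ℂ ≃+* ℂ, (∀ z ∈ k, τ z = σ z) →
        ((d.conj σ).IsRational ↔ (d.conj τ).IsRational) :=
  individual d

end Pool.Agent.Results.MP_e2e4f5_ag.IndividualLaw
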